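import Mathlib
import Pool.Agent.UBS.FIN

/-!
# Uniqueness of unconditional basis for essentially incomparable summands

If the Banach spaces `X` and `Y` (over `ℝ` or `ℂ`) are essentially incomparable and each of them has
a unique unconditional basis up to permutation, then so has `X × Y`.
-/

set_option autoImplicit false

namespace Pool.Agent.Results.MP_eb6f89_an.EssentiallyIncomparable

open Pool.Agent.UBS

theorem result (𝕜 : Type*) [RCLike 𝕜]
    (X : Type*) [NormedAddCommGroup X] [NormedSpace 𝕜 X] [CompleteSpace X]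
    (Y : Type*) [NormedAddCommGroup Y] [NormedSpace 𝕜 Y] [CompleteSpace Y]
    (h : EssInc 𝕜 X Y) (hX : HasUUB 𝕜 X) (hY : HasUUB 𝕜 Y) : HasUUB 𝕜 (X × Y) :=
  hasUUB_prod_of_essInc hX hY h

end Pool.Agent.Results.MP_eb6f89_an.EssentiallyIncomparable
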