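import Pool.Agent.UBN.UE
import Pool.Agent.UBN.Cf
import Pool.Agent.UUB.PRB
import Pool.Agent.UUB.INV

/-!
# The sum of two spaces with a unique unconditional basis may have two of them
-/

namespace Pool.Agent.Results.MP_eb6f89_an.NegativeAnswer

open Pool.Agent.UUB Pool.Agent.UBN

/-- There are Banach spaces `X` and `Y`, each with a unique unconditional basis up to permutation,
such that `X × Y` has two semi-normalized unconditional bases which are not permutatively
equivalent. -/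
theorem result : ∃ (X : Type) (_ : NormedAddCommGroup X) (_ : NormedSpace ℝ X)
    (_ : CompleteSpace X) (Y : Type) (_ : NormedAddCommGroup Y) (_ : NormedSpace ℝ Y)
    (_ : CompleteSpace Y), HasUUB ℝ X ∧ HasUUB ℝ Y ∧
      ∃ (J I : Type) (x : J → X × Y) (y : I → X × Y), IsUncBasis ℝ x ∧ SemiNormalized x ∧
        IsUncBasis ℝ y ∧ SemiNormalized y ∧ ¬ PermEquiv ℝ x y := by
  obtain ⟨X, i1, i2, i3, eX, hX⟩ := exists_ambB EB
  obtain ⟨Y, j1, j2, j3, eY, hY⟩ := exists_ambB GB
  refine ⟨X, i1, i2, i3, Y, j1, j2, j3, hasUUB_E hX, hasUUB_G hY, ?_⟩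
  have h := not_hasUUB_prod hX hY
  obtain ⟨J, x, hx, hxs⟩ := (hasUUB_E hX).1
  obtain ⟨I, y, hy, hys⟩ := (hasUUB_G hY).1
  by_contra hcon
  apply h
  refine ⟨⟨J ⊕ I, _, prod_basis hx hy, semi_prod hxs hys⟩, ?_⟩
  intro J' I' x' y' h1 h2 h3 h4
  by_contra hn
  exact hcon ⟨J', I', x', y', h1, h2, h3, h4, hn⟩

end Pool.Agent.Results.MP_eb6f89_an.NegativeAnswer
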