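import Pool.Agent.UUB.FIN

/-!
# Adding `ℓ_2`, `ℓ_1` or `c_0` preserves the uniqueness of the unconditional basis
-/

namespace Pool.Agent.Results.MP_eb6f89_an.SumWithClassical

open Pool.Agent.UUB

/-- If the Banach space `X` has a unique unconditional basis up to permutation, so do the sums of
`X` with `ℓ_2`, `ℓ_1` and `c_0`. -/
theorem result.{u, v} (𝕜 : Type u) [RCLike 𝕜] (X : Type v) [NormedAddCommGroup X]
    [NormedSpace 𝕜 X] [CompleteSpace X] (hX : HasUUB 𝕜 X) :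
    HasUUB 𝕜 (X × lp (fun _ : ℕ => 𝕜) 2) ∧ HasUUB 𝕜 (X × lp (fun _ : ℕ => 𝕜) 1) ∧
      HasUUB 𝕜 (X × ZeroAtInftyContinuousMap ℕ 𝕜) :=
  ⟨sum_l2 hX, sum_l1 hX, sum_c0 hX⟩

end Pool.Agent.Results.MP_eb6f89_an.SumWithClassical
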